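import Mathlib
import Pool.Agent.Lib.SAC84.TS84

/-!
Existence of the two-sided minimal exact sequence of a module without free summands over a
self-injective artinian local ring.
-/

set_option autoImplicit false

open IsLocalRing

universe u

namespace SAC3

open SAC84

variable {R : Type u} [CommRing R] [IsLocalRing R]

section soc

variable [IsArtinianRing R]

/-- A non-zero element of a module over an artinian local ring has a non-zero multiple killed by
the maximal ideal. -/
lemma exists_mul_killed {X : Type u} [AddCommGroup X] [Module R X] (x : X) (hx : x ≠ 0) :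
    ∃ r : R, r • x ≠ 0 ∧ ∀ a ∈ maximalIdeal R, a • (r • x) = 0 := by
  classical
  have hnil : IsNilpotent (maximalIdeal R) := by
    have h := IsArtinianRing.isNilpotent_jacobson_bot (R := R)
    rwa [IsLocalRing.jacobson_eq_maximalIdeal _ bot_ne_top] at h
  obtain ⟨N, hN⟩ := hnil
  have hex : ∃ n, ∀ a ∈ (maximalIdeal R) ^ n, a • x = 0 := by
    refine ⟨N, fun a ha => ?_⟩
    rw [hN] at ha
    have : a = 0 := by simpa using ha
    rw [this, zero_smul]
  set n := Nat.find hex with hn
  have hspec : ∀ a ∈ (maximalIdeal R) ^ n, a • x = 0 := Nat.find_spec hex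
  have hn0 : n ≠ 0 := by
    intro h0
    apply hx
    have := hspec 1 (by rw [h0, pow_zero]; simp)
    simpa using this
  obtain ⟨m, hm⟩ := Nat.exists_eq_succ_of_ne_zero hn0
  have hlt : ¬ ∀ a ∈ (maximalIdeal R) ^ m, a • x = 0 :=
    Nat.find_min hex (by omega)
  push Not at hlt
  obtain ⟨r, hr, hrx⟩ := hlt
  refine ⟨r, hrx, fun a ha => ?_⟩
  rw [smul_smul]
  apply hspec
  rw [hm, pow_succ']
  exact Ideal.mul_mem_mul ha hr

/-- A generator of the socle. -/
lemma exists_soc (R : Type u) [CommRing R] [IsLocalRing R] [IsArtinianRing R] :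
    ∃ s : R, s ≠ 0 ∧ ∀ a ∈ maximalIdeal R, a * s = 0 := by
  obtain ⟨r, h1, h2⟩ := exists_mul_killed (R := R) (1 : R) one_ne_zero
  refine ⟨r, by simpa using h1, fun a ha => ?_⟩
  simpa using h2 a ha

end soc

lemma mem_of_mul_soc {s : R} (hs : s ≠ 0) {a : R} (h : s * a = 0) : a ∈ maximalIdeal R := by
  rw [mem_maximalIdeal, mem_nonunits_iff]
  intro hu
  apply hs
  obtain ⟨u, rfl⟩ := hu
  have := congrArg (· * (↑u⁻¹ : R)) h
  simpa [mul_assoc] using this

lemma soc_gen (hinj : Module.Injective R R) {s : R} (hs : s ≠ 0)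
    (hm : ∀ a ∈ maximalIdeal R, a * s = 0) {z : R} (hz : ∀ a ∈ maximalIdeal R, a * z = 0) :
    ∃ t : R, z = s * t := by
  let g : (R ⧸ maximalIdeal R) →ₗ[R] R :=
    (maximalIdeal R).liftQ (LinearMap.toSpanSingleton R R s) (by
      intro a ha
      simpa using hm a ha)
  let f : (R ⧸ maximalIdeal R) →ₗ[R] R :=
    (maximalIdeal R).liftQ (LinearMap.toSpanSingleton R R z) (by
      intro a ha
      simpa using hz a ha)
  have hgy : ∀ y : R, g (Submodule.Quotient.mk y) = y * s := fun y => by
    rw [Submodule.liftQ_apply, LinearMap.toSpanSingleton_apply, smul_eq_mul]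
  have hfy : ∀ y : R, f (Submodule.Quotient.mk y) = y * z := fun y => by
    rw [Submodule.liftQ_apply, LinearMap.toSpanSingleton_apply, smul_eq_mul]
  have hg : Function.Injective g := by
    rw [← LinearMap.ker_eq_bot, LinearMap.ker_eq_bot']
    intro x hx
    obtain ⟨y, rfl⟩ := Submodule.Quotient.mk_surjective _ x
    have h1 : y * s = 0 := by rw [← hgy]; exact hx
    rw [Submodule.Quotient.mk_eq_zero]
    exact mem_of_mul_soc hs (by rw [mul_comm]; exact h1)
  obtain ⟨h, hh⟩ := hinj.out g hg f
  refine ⟨h 1, ?_⟩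
  have h1 := hh (Submodule.Quotient.mk 1)
  have h2 : g (Submodule.Quotient.mk 1) = s := by rw [hgy, one_mul]
  have h3 : f (Submodule.Quotient.mk 1) = z := by rw [hfy, one_mul]
  rw [h2, h3] at h1
  rw [← h1]
  have : s = s • (1 : R) := by simp
  conv_lhs => rw [this]
  rw [map_smul, smul_eq_mul]

/-- A module without maps onto the ring, not zero. -/
structure Good (R : Type u) [CommRing R] [IsLocalRing R] where
  /-- The module. -/
  X : FGM R
  small : ∀ (f : X.car →ₗ[R] R) (x : X.car), f x ∈ maximalIdeal R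
  nt : Nontrivial X.car

variable [IsNoetherianRing R] [IsArtinianRing R]

/-- The elements of a module killed by the maximal ideal. -/
def soc (R : Type u) [CommRing R] [IsLocalRing R] (X : Type u) [AddCommGroup X] [Module R X] :
    Submodule R X where
  carrier := {x | ∀ a ∈ maximalIdeal R, a • x = 0}
  add_mem' := by
    intro x y hx hy a ha
    rw [smul_add, hx a ha, hy a ha, add_zero]
  zero_mem' := by
    intro a _
    exact smul_zero a
  smul_mem' := by
    intro c x hx a ha
    rw [smul_comm, hx a ha, smul_zero]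

/-- One step of the negative half. -/
lemma exists_cosyz (hinj : Module.Injective R R) (G : Good R) :
    ∃ (a : ℕ) (C : Good R) (ι : G.X.car →ₗ[R] (Fin a → R)) (π : (Fin a → R) →ₗ[R] C.X.car),
      Function.Injective ι ∧ Function.Surjective π ∧ Function.Exact ι π ∧
      (∀ x k, ι x k ∈ maximalIdeal R) ∧ 1 ≤ a := by
  obtain ⟨s, hs, hms⟩ := exists_soc R
  let S := soc R G.X.car
  obtain ⟨a, c, hc, hcm⟩ : ∃ (a : ℕ) (c : (Fin a → R) →ₗ[R] S), Function.Surjective c ∧
      ∀ v, c v = 0 → ∀ k, v k ∈ maximalIdeal R :=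
    ⟨rk R S, cov R S, cov_surj S, fun v hv k => ker_cov_mem (R := R) S v hv k⟩
  have hker : ∀ v : Fin a → R, c v = 0 → s • v = 0 := by
    intro v hv
    ext k
    have h1 := hms _ (hcm v hv k)
    rw [Pi.smul_apply, smul_eq_mul, mul_comm, h1, Pi.zero_apply]
  have hker2 : ∀ v : Fin a → R, (∀ k, v k ∈ maximalIdeal R) → c v = 0 := by
    intro v hv
    have : v = ∑ k, v k • (Pi.single k (1 : R) : Fin a → R) := by
      ext t
      simp [Pi.single_apply]
    rw [this, map_sum]
    refine Finset.sum_eq_zero fun k _ => ?_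
    rw [map_smul]
    apply Subtype.ext
    exact (c (Pi.single k 1)).2 _ (hv k)
  -- the map `j0`
  let j1 : ((Fin a → R) ⧸ LinearMap.ker c) →ₗ[R] (Fin a → R) :=
    (LinearMap.ker c).liftQ (LinearMap.lsmul R (Fin a → R) s) (by
      intro v hv
      exact hker v hv)
  let j0 : S →ₗ[R] (Fin a → R) :=
    j1 ∘ₗ ((c.quotKerEquivOfSurjective hc).symm : S →ₗ[R] _)
  have hj0 : ∀ v : Fin a → R, j0 (c v) = s • v := by
    intro v
    have : (c.quotKerEquivOfSurjective hc).symm (c v) =
        Submodule.Quotient.mk v := by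
      rw [LinearEquiv.symm_apply_eq]
      rfl
    simp only [j0, LinearMap.comp_apply, LinearEquiv.coe_coe, this]
    rfl
  have hj0inj : ∀ x : S, j0 x = 0 → x = 0 := by
    intro x hx
    obtain ⟨v, rfl⟩ := hc x
    have h1 : s • v = 0 := by rw [← hj0]; exact hx
    refine hker2 v fun k => ?_
    have h2 := congrFun h1 k
    exact mem_of_mul_soc hs (by simpa using h2)
  -- extension to `X`
  have hext : ∀ k : Fin a, ∃ h : G.X.car →ₗ[R] R, ∀ x : S, h (x : G.X.car) = j0 x k := by
    intro k
    obtain ⟨h, hh⟩ := hinj.out (S.subtype) S.injective_subtype ((LinearMap.proj k) ∘ₗ j0)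
    exact ⟨h, fun x => hh x⟩
  choose h hh using hext
  let ι : G.X.car →ₗ[R] (Fin a → R) := LinearMap.pi h
  have hι : ∀ x : S, ι (x : G.X.car) = j0 x := by
    intro x
    ext k
    exact hh k x
  have hιinj : Function.Injective ι := by
    rw [← LinearMap.ker_eq_bot, LinearMap.ker_eq_bot']
    intro x hx
    by_contra hx0
    obtain ⟨r, hr1, hr2⟩ := exists_mul_killed (R := R) x hx0
    let y : S := ⟨r • x, hr2⟩
    have h1 : j0 y = 0 := by
      rw [← hι]
      change ι (r • x) = 0
      rw [map_smul, hx, smul_zero]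
    have h2 := hj0inj y h1
    exact hr1 (congrArg Subtype.val h2)
  have hιm : ∀ x k, ι x k ∈ maximalIdeal R := fun x k => G.small (h k) x
  have hsoc : ∀ z : Fin a → R, (∀ b ∈ maximalIdeal R, b • z = 0) → z ∈ LinearMap.range ι := by
    intro z hz
    have : ∀ k, ∃ t, z k = s * t := by
      intro k
      refine soc_gen hinj hs hms fun b hb => ?_
      simpa using congrFun (hz b hb) k
    choose t ht using this
    refine ⟨(c t : S), ?_⟩
    rw [hι, hj0]
    ext k
    simp [ht k]
  have ha1 : 1 ≤ a := by
    by_contra h0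
    have h00 : a = 0 := by omega
    obtain ⟨x, y, hxy⟩ := G.nt.exists_pair_ne
    apply hxy
    apply hιinj
    ext k
    exact (Fin.elim0 (h00 ▸ k))
  refine ⟨a, ⟨⟨(Fin a → R) ⧸ LinearMap.range ι⟩, ?_, ?_⟩, ι, (LinearMap.range ι).mkQ, hιinj,
    Submodule.mkQ_surjective _, ?_, hιm, ha1⟩
  · intro f x
    obtain ⟨y, rfl⟩ := Submodule.mkQ_surjective _ x
    have h1 : s • y ∈ LinearMap.range ι := by
      apply hsoc
      intro b hb
      rw [smul_smul, hms b hb, zero_smul]
    have h2 : f ((LinearMap.range ι).mkQ (s • y)) = 0 := by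
      have : (LinearMap.range ι).mkQ (s • y) = 0 := by
        rw [Submodule.mkQ_apply, Submodule.Quotient.mk_eq_zero]
        exact h1
      rw [this, map_zero]
    rw [map_smul, map_smul, smul_eq_mul] at h2
    exact mem_of_mul_soc hs h2
  · rw [Submodule.Quotient.nontrivial_iff]
    intro htop
    have : (Pi.single (⟨0, ha1⟩ : Fin a) (1 : R) : Fin a → R) ∈ LinearMap.range ι := by
      rw [htop]; trivial
    obtain ⟨x, hx⟩ := this
    have h1 := hιm x ⟨0, ha1⟩
    rw [hx, Pi.single_eq_same] at h1
    exact (maximalIdeal.isMaximal R).ne_top ((Ideal.eq_top_iff_one _).2 h1)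
  · intro y
    rw [Submodule.mkQ_apply, Submodule.Quotient.mk_eq_zero]
    rfl

/-- The syzygy of a good module is good. -/
lemma good_syz (G : Good R) : (∀ (f : (syz G.X).car →ₗ[R] R) (x : (syz G.X).car),
    f x ∈ maximalIdeal R) ∧ Nontrivial (syz G.X).car := by
  obtain ⟨s, hs, hms⟩ := exists_soc R
  constructor
  · intro f x
    have h1 : s • x = 0 := by
      apply Subtype.ext
      ext k
      have h3 := hms _ (ker_cov_mem (R := R) G.X.car x.1 x.2 k)
      change s * x.1 k = 0
      rw [mul_comm, h3]
    have h2 : s * f x = 0 := by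
      rw [← smul_eq_mul, ← map_smul, h1, map_zero]
    exact mem_of_mul_soc hs h2
  · by_contra hnt
    rw [not_nontrivial_iff_subsingleton] at hnt
    have hinj : Function.Injective (cov R G.X.car) := by
      rw [← LinearMap.ker_eq_bot, Submodule.eq_bot_iff]
      intro v hv
      have h3 : (⟨v, hv⟩ : (syz G.X).car) = 0 := hnt.elim _ _
      exact congrArg Subtype.val h3
    let e := LinearEquiv.ofBijective (cov R G.X.car) ⟨hinj, cov_surj _⟩
    have hpos : 0 < rk R G.X.car := by
      by_contra h0
      have h00 : rk R G.X.car = 0 := by omega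
      obtain ⟨x, y, hxy⟩ := G.nt.exists_pair_ne
      apply hxy
      apply e.symm.injective
      ext k
      exact (Fin.elim0 (h00 ▸ k))
    let pr : (Fin (rk R G.X.car) → R) →ₗ[R] R := LinearMap.proj (⟨0, hpos⟩ : Fin (rk R G.X.car))
    have h1 := G.small (pr ∘ₗ e.symm.toLinearMap) (e (Pi.single ⟨0, hpos⟩ 1))
    simp [pr] at h1

omit [IsArtinianRing R] in
lemma rk_pos (X : FGM R) (h : Nontrivial X.car) : 1 ≤ rk R X.car := by
  by_contra h0
  have h00 : rk R X.car = 0 := by omega
  obtain ⟨x, y, hxy⟩ := h.exists_pair_ne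
  apply hxy
  obtain ⟨v, rfl⟩ := cov_surj (R := R) X.car x
  obtain ⟨w, rfl⟩ := cov_surj (R := R) X.car y
  congr 1
  ext k
  exact (Fin.elim0 (h00 ▸ k))

lemma good_sy (G : Good R) (n : ℕ) : (∀ (f : (sy G.X n).car →ₗ[R] R) (x : (sy G.X n).car),
    f x ∈ maximalIdeal R) ∧ Nontrivial (sy G.X n).car := by
  induction n with
  | zero => exact ⟨G.small, G.nt⟩
  | succ n ih => exact good_syz ⟨sy G.X n, ih.1, ih.2⟩

/-- A chosen cosyzygy. -/
noncomputable def cz (hinj : Module.Injective R R) (G : Good R) : Good R :=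
  (exists_cosyz hinj G).choose_spec.choose

/-- The negative half. -/
noncomputable def ng (hinj : Module.Injective R R) (G : Good R) : ℕ → Good R
  | 0 => G
  | n + 1 => cz hinj (ng hinj G n)

/-- The ranks in the negative half. -/
noncomputable def ca (hinj : Module.Injective R R) (G : Good R) : ℕ :=
  (exists_cosyz hinj G).choose

/-- The inclusions in the negative half. -/
noncomputable def ci (hinj : Module.Injective R R) (G : Good R) :
    G.X.car →ₗ[R] (Fin (ca hinj G) → R) :=
  (exists_cosyz hinj G).choose_spec.choose_spec.choose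

/-- The projections in the negative half. -/
noncomputable def cp (hinj : Module.Injective R R) (G : Good R) :
    (Fin (ca hinj G) → R) →ₗ[R] (cz hinj G).X.car :=
  (exists_cosyz hinj G).choose_spec.choose_spec.choose_spec.choose

lemma cz_spec (hinj : Module.Injective R R) (G : Good R) :
    Function.Injective (ci hinj G) ∧ Function.Surjective (cp hinj G) ∧
      Function.Exact (ci hinj G) (cp hinj G) ∧
      (∀ x k, ci hinj G x k ∈ maximalIdeal R) ∧ 1 ≤ ca hinj G :=
  (exists_cosyz hinj G).choose_spec.choose_spec.choose_spec.choose_spec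

/-- The two-sided sequence. -/
noncomputable def mkTS (hinj : Module.Injective R R) (G : Good R) : TS R where
  M := fun i => match i with
    | Int.ofNat n => sy G.X n
    | Int.negSucc n => (ng hinj G (n + 1)).X
  b := fun i => match i with
    | Int.ofNat n => bt G.X n
    | Int.negSucc n => ca hinj (ng hinj G n)
  inc := fun i => match i with
    | Int.ofNat n => SAC84.inc G.X n
    | Int.negSucc 0 => ci hinj (ng hinj G 0)
    | Int.negSucc (n + 1) => ci hinj (ng hinj G (n + 1))
  pro := fun i => match i with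
    | Int.ofNat n => SAC84.pro G.X n
    | Int.negSucc n => cp hinj (ng hinj G n)
  inj := fun i => match i with
    | Int.ofNat n => inc_inj G.X n
    | Int.negSucc 0 => (cz_spec hinj (ng hinj G 0)).1
    | Int.negSucc (n + 1) => (cz_spec hinj (ng hinj G (n + 1))).1
  surj := fun i => match i with
    | Int.ofNat n => pro_surj G.X n
    | Int.negSucc n => (cz_spec hinj (ng hinj G n)).2.1
  ex := fun i => match i with
    | Int.ofNat n => inc_pro G.X n
    | Int.negSucc 0 => (cz_spec hinj (ng hinj G 0)).2.2.1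
    | Int.negSucc (n + 1) => (cz_spec hinj (ng hinj G (n + 1))).2.2.1
  mem := fun i => match i with
    | Int.ofNat n => inc_mem G.X n
    | Int.negSucc 0 => (cz_spec hinj (ng hinj G 0)).2.2.2.1
    | Int.negSucc (n + 1) => (cz_spec hinj (ng hinj G (n + 1))).2.2.2.1
  pos := fun i => match i with
    | Int.ofNat n => rk_pos _ (good_sy G n).2
    | Int.negSucc n => (cz_spec hinj (ng hinj G n)).2.2.2.2

/-- Existence of the two-sided minimal sequence. -/
theorem exists_TS {R : Type u} [CommRing R] [IsLocalRing R] [IsNoetherianRing R]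
    [IsArtinianRing R] (hinj : Module.Injective R R) (X : FGM R)
    (hX : ∀ (f : X.car →ₗ[R] R) (x : X.car), f x ∈ maximalIdeal R) (h0 : Nontrivial X.car) :
    ∃ T : TS R, T.M 0 = X :=
  ⟨mkTS hinj ⟨X, hX, h0⟩, rfl⟩

/-- The syzygy of any finitely generated module has no maps onto the ring. -/
lemma syz_small (X : FGM R) (f : (syz X).car →ₗ[R] R) (x : (syz X).car) :
    f x ∈ maximalIdeal R := by
  obtain ⟨s, hs, hms⟩ := exists_soc R
  have h1 : s • x = 0 := by
    apply Subtype.ext
    ext k
    have h3 := hms _ (ker_cov_mem (R := R) X.car x.1 x.2 k)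
    change s * x.1 k = 0
    rw [mul_comm, h3]
  have h2 : s * f x = 0 := by
    rw [← smul_eq_mul, ← map_smul, h1, map_zero]
  exact mem_of_mul_soc hs h2

omit [IsArtinianRing R] in
/-- The syzygy of a non-free module is not zero. -/
lemma syz_nontrivial (X : FGM R) (hX : ¬ Module.Free R X.car) : Nontrivial (syz X).car := by
  by_contra hnt
  rw [not_nontrivial_iff_subsingleton] at hnt
  have hinj : Function.Injective (cov R X.car) := by
    rw [← LinearMap.ker_eq_bot, Submodule.eq_bot_iff]
    intro v hv
    have h3 : (⟨v, hv⟩ : (syz X).car) = 0 := hnt.elim _ _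
    exact congrArg Subtype.val h3
  exact hX (Module.Free.of_equiv (LinearEquiv.ofBijective (cov R X.car) ⟨hinj, cov_surj _⟩))

/-- The two-sided minimal sequence through the syzygy of a non-free module. -/
theorem exists_TS_of_not_free {R : Type u} [CommRing R] [IsLocalRing R] [IsNoetherianRing R]
    [IsArtinianRing R] (hinj : Module.Injective R R) (X : FGM R)
    (hX : ¬ Module.Free R X.car) : ∃ T : TS R, T.M 0 = syz X :=
  exists_TS hinj (syz X) (syz_small X) (syz_nontrivial X hX)

end SAC3
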