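import Mathlib
import Pool.Agent.Lib.SAC84.Ineq84
import Pool.Agent.Lib.SAC75.HMain

/-!
Over an artinian local ring with finite residue field there are only finitely many modules with a
bounded number of generators. So a module with bounded Betti numbers, all higher self extensions
of which vanish eventually and which has no higher extensions by the ring, is free.
-/

set_option autoImplicit false

open CategoryTheory IsLocalRing

universe u

namespace SAC3

open SAC84 SAC75

section fin

variable {R : Type u} [CommRing R] [IsLocalRing R] [IsNoetherianRing R] [IsArtinianRing R]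

/-- An artinian local ring with finite residue field is finite. -/
lemma finite_ring [Finite (ResidueField R)] : Finite R := by
  have h1 : ∃ n, (maximalIdeal R) ^ n ≤ (⊥ : Ideal R) := by
    obtain ⟨n, hn⟩ := IsArtinianRing.isNilpotent_jacobson_bot (R := R)
    refine ⟨n, ?_⟩
    rw [jacobson_eq_maximalIdeal _ bot_ne_top] at hn
    exact le_of_eq hn
  have h2 : Finite (R ⧸ (⊥ : Ideal R)) := finite_quotient_iff.2 h1
  exact Finite.of_injective (Ideal.Quotient.mk (⊥ : Ideal R)) (by
    rw [injective_iff_map_eq_zero]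
    intro a ha
    simpa using (Ideal.Quotient.eq_zero_iff_mem.1 ha))

variable [HasExt.{u} (ModuleCat.{u} R)]

/-- Two syzygies far apart are never isomorphic. -/
lemma no_surj (M : FGM R) (h : ¬ Module.Free R M.car) (i j : ℕ)
    (h1 : ExtZ R (sy M i).car (sy M j).car 1)
    (e : (sy M (i + 1)).car →ₗ[R] (sy M j).car) : ¬ Function.Surjective e := by
  intro he
  obtain ⟨ψ, hψ⟩ := ExtZ.extend (inc_inj M i) (pro_surj M i) (inc_pro M i) h1 e
  have hm : (⊤ : Submodule R (sy M j).car) ≤ maximalIdeal R • (⊤ : Submodule R (sy M j).car) := by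
    intro y _
    obtain ⟨x, rfl⟩ := he y
    have h2 : e x = ∑ s, inc M i x s • ψ (Pi.single s 1) := by
      rw [← hψ]
      change ψ (inc M i x) = _
      conv_lhs => rw [← LinearMap.sum_single_apply (fun _ : Fin (bt M i) => R) (inc M i x)]
      rw [map_sum]
      refine Finset.sum_congr rfl fun j _ => ?_
      rw [← map_smul]
      congr 1
      ext t
      simp [Pi.single_apply]
    rw [h2]
    exact Submodule.sum_mem _ fun s _ =>
      Submodule.smul_mem_smul (inc_mem M i x s) Submodule.mem_top
  have h3 : (⊤ : Submodule R (sy M j).car) = ⊥ := by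
    refine Submodule.eq_bot_of_le_smul_of_le_jacobson_bot (maximalIdeal R) ⊤
      (Module.Finite.fg_top) hm ?_
    rw [jacobson_eq_maximalIdeal _ bot_ne_top]
  have := sy_nt M h j
  exact top_ne_bot h3

/-- Bounded Betti numbers over a ring with finite residue field. -/
theorem no_bounded [Finite (ResidueField R)] (M : FGM R) (h : ¬ Module.Free R M.car)
    (hR : ∀ n, ExtZ R M.car R (n + 1)) {N : ℕ} (hM : ∀ n, N ≤ n → ExtZ R M.car M.car n)
    {B j1 : ℕ} (hB : ∀ j, j1 ≤ j → bt M j ≤ B) : False := by
  have hfin : Finite R := finite_ring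
  have hp : ∀ n, ∃ p : (Fin B → R) →ₗ[R] (sy M (j1 + n)).car, Function.Surjective p := by
    intro n
    have h1 := hB (j1 + n) (by omega)
    let q : (Fin B → R) →ₗ[R] (Fin (bt M (j1 + n)) → R) :=
      LinearMap.funLeft R R (Fin.castLE h1)
    refine ⟨pro M (j1 + n) ∘ₗ q, ?_⟩
    have hq : Function.Surjective q :=
      LinearMap.funLeft_surjective_of_injective R R _ (Fin.castLE_injective h1)
    exact (pro_surj M (j1 + n)).comp hq
  choose p hp using hp
  obtain ⟨K, hK⟩ := Finite.exists_infinite_fiber (fun n => LinearMap.ker (p n))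
  rw [Set.infinite_coe_iff] at hK
  obtain ⟨j, hj⟩ := hK.nonempty
  obtain ⟨i, hi, hij⟩ := hK.exists_gt (N + j + 1)
  have h1 : LinearMap.ker (p i) = LinearMap.ker (p j) := by
    rw [Set.mem_preimage, Set.mem_singleton_iff] at hi hj
    exact hi.trans hj.symm
  obtain ⟨i', rfl⟩ : ∃ i', i = i' + 1 := ⟨i - 1, by omega⟩
  let e : (sy M (j1 + (i' + 1))).car →ₗ[R] (sy M (j1 + j)).car :=
    ((LinearMap.ker (p (i' + 1))).liftQ (p j) (le_of_eq h1)) ∘ₗ
      ((p (i' + 1)).quotKerEquivOfSurjective (hp (i' + 1))).symm.toLinearMap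
  have he : Function.Surjective e := by
    intro y
    obtain ⟨x, hx⟩ := hp j y
    refine ⟨(p (i' + 1)).quotKerEquivOfSurjective (hp (i' + 1)) (Submodule.Quotient.mk x), ?_⟩
    change (LinearMap.ker (p (i' + 1))).liftQ (p j) (le_of_eq h1)
      (((p (i' + 1)).quotKerEquivOfSurjective (hp (i' + 1))).symm _) = y
    rw [LinearEquiv.symm_apply_apply]
    exact hx
  have h2 : ExtZ R (sy M (j1 + i')).car (sy M (j1 + j)).car 1 :=
    ext_sy_sy M hR hM (n := 0) (by omega)
  exact no_surj M h (j1 + i') (j1 + j) h2 e he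

end fin

end SAC3
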