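import Mathlib
import Pool.Agent.Lib.SAC84.Ineq84

/-!
More dimension shifting for `Ext`: transport along linear equivalences, quotients in the second
variable, and shifting back up in the first variable.
-/

set_option autoImplicit false

open CategoryTheory IsLocalRing SAC84

universe u

namespace SAC3

section

variable {R : Type u} [CommRing R] [HasExt.{u} (ModuleCat.{u} R)]

variable {K F X Y Z Y' X' : Type u} [AddCommGroup K] [Module R K] [AddCommGroup F] [Module R F]
  [AddCommGroup X] [Module R X] [AddCommGroup Y] [Module R Y] [AddCommGroup Z] [Module R Z]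
  [AddCommGroup Y'] [Module R Y'] [AddCommGroup X'] [Module R X']

lemma extZ_congr_right (e : Y ≃ₗ[R] Y') {n : ℕ} (h : ExtZ R X Y n) : ExtZ R X Y' n := by
  refine subsingleton_of_forall_eq 0 fun x => ?_
  have h0 : x.comp (Abelian.Ext.mk₀ (ModuleCat.ofHom e.symm.toLinearMap)) (add_zero n) = 0 :=
    @Subsingleton.elim _ h _ _
  have h1 : (Abelian.Ext.mk₀ (ModuleCat.ofHom e.symm.toLinearMap)).comp
      (Abelian.Ext.mk₀ (ModuleCat.ofHom e.toLinearMap)) (add_zero 0) =
      Abelian.Ext.mk₀ (𝟙 (ModuleCat.of R Y')) := by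
    rw [Abelian.Ext.mk₀_comp_mk₀, ← ModuleCat.ofHom_comp]
    congr 1
    ext v
    simp
  have h2 : x = x.comp (Abelian.Ext.mk₀ (𝟙 (ModuleCat.of R Y'))) (add_zero n) := by simp
  rw [h2, ← h1, ← Abelian.Ext.comp_assoc_of_third_deg_zero, h0, Abelian.Ext.zero_comp]

lemma extZ_congr_left (e : X ≃ₗ[R] X') {n : ℕ} (h : ExtZ R X Y n) : ExtZ R X' Y n := by
  refine subsingleton_of_forall_eq 0 fun x => ?_
  have h0 : (Abelian.Ext.mk₀ (ModuleCat.ofHom e.toLinearMap)).comp x (zero_add n) = 0 :=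
    @Subsingleton.elim _ h _ _
  have h1 : (Abelian.Ext.mk₀ (ModuleCat.ofHom e.symm.toLinearMap)).comp
      (Abelian.Ext.mk₀ (ModuleCat.ofHom e.toLinearMap)) (add_zero 0) =
      Abelian.Ext.mk₀ (𝟙 (ModuleCat.of R X')) := by
    rw [Abelian.Ext.mk₀_comp_mk₀, ← ModuleCat.ofHom_comp]
    congr 1
    ext v
    simp
  have h2 : x = (Abelian.Ext.mk₀ (𝟙 (ModuleCat.of R X'))).comp x (zero_add n) := by simp
  rw [h2, ← h1, Abelian.Ext.comp_assoc_of_second_deg_zero, h0, Abelian.Ext.comp_zero]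

/-- Vanishing for the first two terms of a short exact sequence gives it for the third. -/
lemma extZ_quot {f : K →ₗ[R] F} {g : F →ₗ[R] X} (hf : Function.Injective f)
    (hg : Function.Surjective g) (H : Function.Exact f g)
    {n : ℕ} (h : ExtZ R Z F n) (h' : ExtZ R Z K (n + 1)) : ExtZ R Z X n := by
  have hS := sc_exact f g hf hg H
  refine subsingleton_of_forall_eq 0 fun x => ?_
  have h0 : x.comp hS.extClass (rfl : n + 1 = n + 1) = 0 := @Subsingleton.elim _ h' _ _
  obtain ⟨y, hy⟩ := Abelian.Ext.covariant_sequence_exact₃ (ModuleCat.of R Z) hS x rfl h0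
  have hy0 : y = 0 := @Subsingleton.elim _ h _ _
  rw [← hy, hy0, Abelian.Ext.zero_comp]

/-- The first Ext vanishes if all maps from the syzygy extend. -/
lemma one_of_extend {f : K →ₗ[R] F} {g : F →ₗ[R] X} (hf : Function.Injective f)
    (hg : Function.Surjective g) (H : Function.Exact f g) [Module.Projective R F]
    (h : ∀ φ : K →ₗ[R] Y, ∃ ψ : F →ₗ[R] Y, ψ ∘ₗ f = φ) : ExtZ R X Y 1 := by
  have hS := sc_exact f g hf hg H
  have hP : Projective (ModuleCat.of R F) := inferInstance
  refine subsingleton_of_forall_eq 0 fun x => ?_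
  have h0 : (Abelian.Ext.mk₀ (ModuleCat.ofHom g)).comp x (zero_add 1) = 0 :=
    Abelian.Ext.eq_zero_of_projective (P := ModuleCat.of R F) _
  obtain ⟨y, hy⟩ := Abelian.Ext.contravariant_sequence_exact₃ hS (ModuleCat.of R Y) x h0
    (add_zero 1)
  obtain ⟨φ, rfl⟩ := (Abelian.Ext.mk₀_bijective _ _).2 y
  obtain ⟨ψ, hψ⟩ := h φ.hom
  have h3 : φ = ModuleCat.ofHom f ≫ ModuleCat.ofHom ψ := by
    rw [← ModuleCat.ofHom_comp, hψ]
    rfl
  rw [← hy, h3, ← Abelian.Ext.mk₀_comp_mk₀]
  exact hS.extClass_comp_assoc _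

lemma unshift_left {f : K →ₗ[R] F} {g : F →ₗ[R] X} (hf : Function.Injective f)
    (hg : Function.Surjective g) (H : Function.Exact f g) [Module.Projective R F]
    {n : ℕ} (h : ExtZ R K Y (n + 1)) : ExtZ R X Y (n + 2) := by
  have hS := sc_exact f g hf hg H
  have hP : Projective (ModuleCat.of R F) := inferInstance
  refine subsingleton_of_forall_eq 0 fun x => ?_
  have h0 : (Abelian.Ext.mk₀ (ModuleCat.ofHom g)).comp x (zero_add (n + 2)) = 0 :=
    Abelian.Ext.eq_zero_of_projective (P := ModuleCat.of R F) _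
  obtain ⟨y, hy⟩ := Abelian.Ext.contravariant_sequence_exact₃ hS (ModuleCat.of R Y) x h0
    (by omega : 1 + (n + 1) = n + 2)
  have hy0 : y = 0 := @Subsingleton.elim _ h _ _
  rw [← hy, hy0, Abelian.Ext.comp_zero]

end

end SAC3
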