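import Mathlib
import Pool.Agent.Lib.SAC3.RedExt

/-!
Reduction of short exact sequences modulo a regular sequence, syzygies and weakly regular
sequences.
-/

set_option autoImplicit false

open CategoryTheory IsLocalRing SAC84 RingTheory.Sequence

universe u

namespace SAC3

section

variable {R : Type u} [CommRing R]

variable {K F X Y : Type u} [AddCommGroup K] [Module R K] [AddCommGroup F] [Module R F]
  [AddCommGroup X] [Module R X] [AddCommGroup Y] [Module R Y]

/-- The reduction of a linear map modulo an ideal. -/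
def red (I : Ideal R) (f : K →ₗ[R] F) :
    (K ⧸ (I • ⊤ : Submodule R K)) →ₗ[R] (F ⧸ (I • ⊤ : Submodule R F)) :=
  Submodule.mapQ _ _ f (Submodule.smul_top_le_comap_smul_top I f)

lemma red_mk (I : Ideal R) (f : K →ₗ[R] F) (x : K) :
    red I f (Submodule.Quotient.mk x) = Submodule.Quotient.mk (f x) := rfl

lemma red_surj (I : Ideal R) {g : F →ₗ[R] X} (hg : Function.Surjective g) :
    Function.Surjective (red I g) := by
  intro y
  obtain ⟨x, rfl⟩ := Submodule.Quotient.mk_surjective _ y
  obtain ⟨v, rfl⟩ := hg x
  exact ⟨Submodule.Quotient.mk v, rfl⟩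

lemma red_exact (I : Ideal R) {f : K →ₗ[R] F} {g : F →ₗ[R] X}
    (hg : Function.Surjective g) (H : Function.Exact f g) :
    Function.Exact (red I f) (red I g) := by
  intro y
  constructor
  · intro hy
    obtain ⟨v, rfl⟩ := Submodule.Quotient.mk_surjective _ y
    rw [red_mk, Submodule.Quotient.mk_eq_zero] at hy
    have h1 : (I • ⊤ : Submodule R X) = Submodule.map g (I • ⊤ : Submodule R F) := by
      rw [Submodule.map_smul'', Submodule.map_top, LinearMap.range_eq_top.2 hg]
    rw [h1] at hy
    obtain ⟨w, hw, hwv⟩ := hy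
    obtain ⟨k, hk⟩ := (H (v - w)).1 (by rw [map_sub, hwv, sub_self])
    refine ⟨Submodule.Quotient.mk k, ?_⟩
    rw [red_mk, hk, Submodule.Quotient.eq]
    have : v - w - v = -w := by abel
    rw [this]
    exact Submodule.neg_mem _ hw
  · rintro ⟨z, rfl⟩
    obtain ⟨k, rfl⟩ := Submodule.Quotient.mk_surjective _ z
    rw [red_mk, red_mk, H.apply_apply_eq_zero]
    rfl

lemma red_inj {rs : List R} {f : K →ₗ[R] F} {g : F →ₗ[R] X} (hf : Function.Injective f)
    (hg : Function.Surjective g) (H : Function.Exact f g) (hX : IsWeaklyRegular X rs) :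
    Function.Injective (red (Ideal.ofList rs) f) := by
  have h0 : Function.Exact (0 : PUnit.{u+1} →ₗ[R] K) f := by
    intro y
    constructor
    · intro hy
      have : y = 0 := hf (by rw [hy, map_zero])
      exact ⟨0, by rw [this]; rfl⟩
    · rintro ⟨z, rfl⟩
      exact map_zero f
  have h1 := map_first_exact_on_four_term_right_exact_of_isSMulRegular_last h0 H hg hX
  rw [injective_iff_map_eq_zero]
  intro y hy
  obtain ⟨z, hz⟩ := (h1 y).1 hy
  obtain ⟨k, rfl⟩ := Submodule.Quotient.mk_surjective _ z
  rw [← hz]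
  exact (Submodule.Quotient.mk_eq_zero _).2 (Submodule.zero_mem _)

/-- The first `j` members of the sequence are regular. -/
def WR (X : Type u) [AddCommGroup X] [Module R X] (rs : List R) (j : ℕ) : Prop :=
  ∀ i (h : i < rs.length), i < j →
    IsSMulRegular (X ⧸ (Ideal.ofList (rs.take i) • ⊤ : Submodule R X)) rs[i]

lemma WR.wr {rs : List R} {j : ℕ} (h : WR X rs j) (hj : rs.length ≤ j) :
    IsWeaklyRegular X rs :=
  ⟨fun i hi => h i hi (by omega)⟩

lemma WR.of_wr {rs : List R} (j : ℕ) (h : IsWeaklyRegular X rs) : WR X rs j :=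
  fun i hi _ => h.regular_mod_prev i hi

lemma WR.take {rs : List R} {j i : ℕ} (h : WR X rs j) (hi : i ≤ j) :
    IsWeaklyRegular X (rs.take i) := by
  refine ⟨fun k hk => ?_⟩
  have hk' : k < i ∧ k < rs.length := by
    rw [List.length_take] at hk
    omega
  have h1 := h k hk'.2 (by omega)
  rw [List.take_take, min_eq_left (by omega : k ≤ i), List.getElem_take]
  exact h1

lemma WR.syz {rs : List R} {j : ℕ} {f : K →ₗ[R] F} {g : F →ₗ[R] X} (hf : Function.Injective f)
    (hg : Function.Surjective g) (H : Function.Exact f g) (hF : IsWeaklyRegular F rs)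
    (hX : WR X rs j) : WR K rs (j + 1) := by
  intro i hi hij
  have h1 := red_inj hf hg H (hX.take (i := i) (by omega))
  exact (hF.regular_mod_prev i hi).of_injective (red (Ideal.ofList (rs.take i)) f) h1

lemma wr_free {rs : List R} (h : IsWeaklyRegular R rs) (n : ℕ) :
    IsWeaklyRegular (Fin n → R) rs := by
  have h1 : IsWeaklyRegular (TensorProduct R (Fin n → R) R) rs := h.isWeaklyRegular_lTensor
  exact ((TensorProduct.rid R (Fin n → R)).isWeaklyRegular_congr rs).1 h1

end

section

variable {R : Type u} [CommRing R] [IsLocalRing R] [IsNoetherianRing R]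

lemma sy_sy (M : FGM R) (d i : ℕ) : sy (sy M d) i = sy M (d + i) := by
  induction i with
  | zero => rfl
  | succ i ih =>
    change syz (sy (sy M d) i) = syz (sy M (d + i))
    rw [ih]

lemma wr_sy (M : FGM R) {rs : List R} (h : IsWeaklyRegular R rs) (j : ℕ) :
    WR (sy M j).car rs j := by
  induction j with
  | zero => intro i hi hi'; omega
  | succ j ih => exact WR.syz (inc_inj M j) (pro_surj M j) (inc_pro M j) (wr_free h _) ih

end

section

variable {R : Type u} [CommRing R] [HasExt.{u} (ModuleCat.{u} R)]

variable {Y Z : Type u} [AddCommGroup Y] [Module R Y] [AddCommGroup Z] [Module R Z]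

open Pointwise in
/-- Vanishing of Ext passes to the quotient by a regular sequence in the second variable. -/
lemma extZ_quot_reg {rs : List R} (h : IsWeaklyRegular Y rs) {a : ℕ}
    (hY : ∀ n, a ≤ n → ExtZ R Z Y n) (n : ℕ) (hn : a ≤ n) :
    ExtZ R Z (Y ⧸ (Ideal.ofList rs • ⊤ : Submodule R Y)) n := by
  induction h with
  | nil Y =>
    have h1 : (Ideal.ofList ([] : List R) • ⊤ : Submodule R Y) = ⊥ := by simp
    exact extZ_congr_right (Submodule.quotEquivOfEqBot _ h1).symm (hY n hn)
  | @cons Y _ _ r rs h1 h2 ih =>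
    have h3 : ∀ n, a ≤ n → ExtZ R Z (QuotSMulTop r Y) n := by
      intro n hn
      have hf : Function.Injective (LinearMap.lsmul R Y r) := h1
      have hg : Function.Surjective (Submodule.mkQ (r • (⊤ : Submodule R Y))) :=
        Submodule.mkQ_surjective _
      have H : Function.Exact (LinearMap.lsmul R Y r) (Submodule.mkQ (r • (⊤ : Submodule R Y))) := by
        rw [LinearMap.exact_iff, Submodule.ker_mkQ]
        ext y
        rw [Submodule.mem_smul_pointwise_iff_exists]
        constructor
        · rintro ⟨z, -, hz⟩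
          exact ⟨z, hz⟩
        · rintro ⟨z, hz⟩
          exact ⟨z, trivial, hz⟩
      exact extZ_quot hf hg H (hY n hn) (hY (n + 1) (by omega))
    exact extZ_congr_right (Submodule.quotOfListConsSMulTopEquivQuotSMulTopInner Y r rs).symm
      (ih h3)

end

end SAC3
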