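import Mathlib
import Pool.Agent.Lib.SAC3.RedMod

/-!
Reduction of the vanishing of Ext modulo a regular sequence.
-/

set_option autoImplicit false

open CategoryTheory IsLocalRing SAC84 RingTheory.Sequence

universe u

namespace SAC3

section lin

variable {R : Type u} [CommRing R]

variable {K F X L : Type u} [AddCommGroup K] [Module R K] [AddCommGroup F] [Module R F]
  [AddCommGroup X] [Module R X] [AddCommGroup L] [Module R L]

/-- The reduction of a linear map modulo an ideal, as a map of modules over the quotient ring. -/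
noncomputable def redS (I : Ideal R) (f : K →ₗ[R] F) :
    (K ⧸ (I • ⊤ : Submodule R K)) →ₗ[R ⧸ I] (F ⧸ (I • ⊤ : Submodule R F)) :=
  (red I f).extendScalarsOfSurjective Ideal.Quotient.mk_surjective

lemma redS_apply (I : Ideal R) (f : K →ₗ[R] F) (x : K ⧸ (I • ⊤ : Submodule R K)) :
    redS I f x = red I f x := rfl

lemma redS_inj (I : Ideal R) {f : K →ₗ[R] F} (h : Function.Injective (red I f)) :
    Function.Injective (redS I f) := by
  intro x y hxy
  rw [redS_apply, redS_apply] at hxy
  exact h hxy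

lemma redS_surj (I : Ideal R) {g : F →ₗ[R] X} (hg : Function.Surjective g) :
    Function.Surjective (redS I g) := by
  intro y
  obtain ⟨x, hx⟩ := red_surj I hg y
  exact ⟨x, by rw [redS_apply, hx]⟩

lemma redS_exact (I : Ideal R) {f : K →ₗ[R] F} {g : F →ₗ[R] X}
    (hg : Function.Surjective g) (H : Function.Exact f g) :
    Function.Exact (redS I f) (redS I g) := by
  intro y
  rw [redS_apply]
  refine (red_exact I hg H y).trans ?_
  constructor
  · rintro ⟨z, hz⟩
    exact ⟨z, by rw [redS_apply, hz]⟩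
  · rintro ⟨z, hz⟩
    exact ⟨z, by rw [← hz, redS_apply]⟩

lemma free_red (I : Ideal R) (F : Type u) [AddCommGroup F] [Module R F] [Module.Free R F] :
    Module.Free (R ⧸ I) (F ⧸ (I • ⊤ : Submodule R F)) := by
  have e : (TensorProduct R (R ⧸ I) F) ≃ₗ[R ⧸ I] (F ⧸ (I • ⊤ : Submodule R F)) :=
    (TensorProduct.quotTensorEquivQuotSMul F I).extendScalarsOfSurjective
    Ideal.Quotient.mk_surjective
  exact Module.Free.of_equiv e

/-- Extension of linear maps passes to the reduction. -/
lemma extend_red (I : Ideal R) [Module (R ⧸ I) L] [IsScalarTower R (R ⧸ I) L]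
    (f : K →ₗ[R] F) (h : ∀ φ : K →ₗ[R] L, ∃ ψ : F →ₗ[R] L, ψ ∘ₗ f = φ)
    (φ : (K ⧸ (I • ⊤ : Submodule R K)) →ₗ[R ⧸ I] L) :
    ∃ ψ : (F ⧸ (I • ⊤ : Submodule R F)) →ₗ[R ⧸ I] L, ψ ∘ₗ redS I f = φ := by
  have hφ : ∃ ψ : F →ₗ[R] L, ψ ∘ₗ f = ((φ.restrictScalars R) ∘ₗ Submodule.mkQ _) := h _
  obtain ⟨ψ, hψ⟩ := hφ
  have hk : (I • ⊤ : Submodule R F) ≤ LinearMap.ker ψ := by
    rw [Submodule.smul_le]
    intro a ha v _
    rw [LinearMap.mem_ker, map_smul]
    have h1 : (Ideal.Quotient.mk I a) • ψ v = a • ψ v := algebraMap_smul (R ⧸ I) a (ψ v)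
    rw [← h1, Ideal.Quotient.eq_zero_iff_mem.2 ha, zero_smul]
  refine ⟨(Submodule.liftQ _ ψ hk).extendScalarsOfSurjective Ideal.Quotient.mk_surjective, ?_⟩
  refine LinearMap.ext fun x => ?_
  obtain ⟨k, rfl⟩ := Submodule.Quotient.mk_surjective _ x
  have h2 := LinearMap.congr_fun hψ k
  exact h2

end lin

section main

variable {R : Type u} [CommRing R] [IsLocalRing R] [IsNoetherianRing R]
  [HasExt.{u} (ModuleCat.{u} R)]

lemma extZ_red (N : FGM R) (I : Ideal R)
    (inj : ∀ i, Function.Injective (red I (inc N i)))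
    [HasExt.{u} (ModuleCat.{u} (R ⧸ I))]
    (L : Type u) [AddCommGroup L] [Module R L] [Module (R ⧸ I) L]
    [IsScalarTower R (R ⧸ I) L] (n : ℕ) (h : ExtZ R N.car L (n + 1)) :
    ExtZ (R ⧸ I) (N.car ⧸ (I • ⊤ : Submodule R N.car)) L (n + 1) := by
  have h1 : ExtZ R (sy N n).car L 1 := by
    refine ext_sy_left N L n 0 ?_
    have : 0 + 1 + n = n + 1 := by omega
    rwa [this]
  have inj' : ∀ i, Function.Injective (redS I (inc N i)) := fun i => redS_inj I (inj i)
  have surj : ∀ i, Function.Surjective (redS I (pro N i)) :=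
    fun i => redS_surj I (pro_surj N i)
  have ex : ∀ i, Function.Exact (redS I (inc N i)) (redS I (pro N i)) :=
    fun i => redS_exact I (pro_surj N i) (inc_pro N i)
  have fr : ∀ i, Module.Free (R ⧸ I)
      ((Fin (bt N i) → R) ⧸ (I • ⊤ : Submodule R (Fin (bt N i) → R))) :=
    fun i => free_red I _
  have pr : ∀ i, Module.Projective (R ⧸ I)
      ((Fin (bt N i) → R) ⧸ (I • ⊤ : Submodule R (Fin (bt N i) → R))) :=
    fun i => inferInstance
  have h2 : ExtZ (R ⧸ I) ((sy N n).car ⧸ (I • ⊤ : Submodule R (sy N n).car)) L 1 := by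
    have := pr n
    refine one_of_extend (inj' n) (surj n) (ex n) ?_
    exact extend_red _ _ fun φ => ExtZ.extend (inc_inj N n) (pro_surj N n) (inc_pro N n) h1 φ
  have h3 : ∀ i, i ≤ n → ExtZ (R ⧸ I)
      ((sy N (n - i)).car ⧸ (I • ⊤ : Submodule R (sy N (n - i)).car)) L (i + 1) := by
    intro i
    induction i with
    | zero => intro _; exact h2
    | succ i ih =>
      intro hi
      have h4 := ih (by omega)
      have h5 : n - i = (n - (i + 1)) + 1 := by omega
      rw [h5] at h4
      have := pr (n - (i + 1))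
      exact unshift_left (inj' _) (surj _) (ex _) h4
  have h4 := h3 n le_rfl
  rw [Nat.sub_self] at h4
  exact h4

/-- Freeness of the reduction modulo a weakly regular sequence gives freeness. -/
lemma free_of_red (N : FGM R) {rs : List R} (hrs : ∀ x ∈ rs, x ∈ maximalIdeal R)
    (hN : IsWeaklyRegular N.car rs)
    (h : Module.Free (R ⧸ Ideal.ofList rs) (N.car ⧸ (Ideal.ofList rs • ⊤ : Submodule R N.car))) :
    Module.Free R N.car := by
  set I := Ideal.ofList rs with hI
  have hIm : I ≤ maximalIdeal R := Ideal.span_le.2 hrs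
  have hIj : I ≤ (⊥ : Ideal R).jacobson := by
    rw [IsLocalRing.jacobson_eq_maximalIdeal _ bot_ne_top]
    exact hIm
  have hne : I ≠ ⊤ := fun h => (maximalIdeal.isMaximal R).ne_top (top_le_iff.1 (h ▸ hIm))
  have : Nontrivial (R ⧸ I) := Ideal.Quotient.nontrivial_iff.2 hne
  have : Module.Finite (R ⧸ I) (N.car ⧸ (I • ⊤ : Submodule R N.car)) :=
    Module.Finite.of_restrictScalars_finite R _ _
  let n := Module.finrank (R ⧸ I) (N.car ⧸ (I • ⊤ : Submodule R N.car))
  let b := Module.finBasis (R ⧸ I) (N.car ⧸ (I • ⊤ : Submodule R N.car))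
  let e := b.equivFun
  let q : (Fin n → R) →ₗ[R] (Fin n → R ⧸ I) := LinearMap.pi fun i =>
    (Submodule.mkQ I) ∘ₗ LinearMap.proj i
  have hq : Function.Surjective q := by
    intro v
    choose w hw using fun i => Submodule.mkQ_surjective I (v i)
    exact ⟨w, funext hw⟩
  let f : (Fin n → R) →ₗ[R] (N.car ⧸ (I • ⊤ : Submodule R N.car)) :=
    (e.symm.restrictScalars R).toLinearMap ∘ₗ q
  have hf : Function.Surjective f := e.symm.surjective.comp hq
  obtain ⟨g, hg⟩ := Module.projective_lifting_property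
    (Submodule.mkQ (I • ⊤ : Submodule R N.car)) f (Submodule.mkQ_surjective _)
  have hgs : Function.Surjective g := by
    apply g.surjective_of_surjective_comp_mkQ I hIj
    rwa [hg]
  have hker : ∀ v, f v = 0 → v ∈ (I • ⊤ : Submodule R (Fin n → R)) := by
    intro v hv
    have h1 : q v = 0 := e.symm.injective (by rw [map_zero]; exact hv)
    have h2 : ∀ i, v i ∈ I := fun i =>
      (Submodule.Quotient.mk_eq_zero I).1 (congrArg (fun t => t i) h1)
    have h3 : v = ∑ i, v i • (Pi.single i (1 : R) : Fin n → R) := by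
      ext j
      simp [Pi.single_apply]
    rw [h3]
    exact Submodule.sum_mem _ fun i _ => Submodule.smul_mem_smul (h2 i) trivial
  have hex : Function.Exact (LinearMap.ker g).subtype g := LinearMap.exact_subtype_ker_map g
  have hinj := red_inj (Submodule.injective_subtype _) hgs hex hN
  have h4 : LinearMap.ker g ≤ I • LinearMap.ker g := by
    intro x hx
    have h5 : red I (LinearMap.ker g).subtype (Submodule.Quotient.mk ⟨x, hx⟩) = 0 := by
      rw [red_mk, Submodule.Quotient.mk_eq_zero]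
      refine hker _ ?_
      rw [← hg]
      change Submodule.mkQ _ (g x) = 0
      rw [LinearMap.mem_ker.1 hx, map_zero]
    have h6 : (Submodule.Quotient.mk ⟨x, hx⟩ : (LinearMap.ker g) ⧸
        (I • ⊤ : Submodule R (LinearMap.ker g))) = 0 := hinj (by rw [h5, map_zero])
    rw [Submodule.Quotient.mk_eq_zero] at h6
    have h7 : (x : Fin n → R) ∈ Submodule.map (LinearMap.ker g).subtype
        (I • ⊤ : Submodule R (LinearMap.ker g)) := ⟨⟨x, hx⟩, h6, rfl⟩
    rw [Submodule.map_smul'', Submodule.map_subtype_top] at h7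
    exact h7
  have h5 : LinearMap.ker g = ⊥ :=
    Submodule.eq_bot_of_le_smul_of_le_jacobson_bot I _ (IsNoetherian.noetherian _) h4 hIj
  exact Module.Free.of_equiv (LinearEquiv.ofBijective g ⟨LinearMap.ker_eq_bot.1 h5, hgs⟩)

/-- If a syzygy is free and the relevant Ext vanishes then the module is free. -/
lemma free_of_free_sy (M : FGM R) (hR : ∀ n, ExtZ R M.car R (n + 1)) (i : ℕ)
    (h : Module.Free R (sy M (i + 1)).car) : Module.Free R (sy M i).car := by
  let b := Module.finBasis R (sy M (i + 1)).car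
  have h1 : ExtZ R (sy M i).car (sy M (i + 1)).car 1 :=
    extZ_congr_right b.equivFun.symm (ExtZ.pi (ext_sy_ring M hR i 0))
  obtain ⟨s, hs⟩ := ExtZ.lift (inc_inj M i) (pro_surj M i) (inc_pro M i) h1 LinearMap.id
  have : Module.Projective R (sy M i).car := Module.Projective.of_split s (pro M i) hs
  exact Module.free_of_flat_of_isLocalRing

lemma free_of_free_sy' (M : FGM R) (hR : ∀ n, ExtZ R M.car R (n + 1)) (d : ℕ)
    (h : Module.Free R (sy M d).car) : Module.Free R M.car := by
  induction d with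
  | zero => exact h
  | succ d ih => exact ih (free_of_free_sy M hR d h)

/-- **Reduction modulo a regular sequence.** -/
theorem reduction {rs : List R} (hrs : ∀ x ∈ rs, x ∈ maximalIdeal R)
    (hreg : IsWeaklyRegular R rs) [HasExt.{u} (ModuleCat.{u} (R ⧸ Ideal.ofList rs))]
    (G : ∀ M' : FGM (R ⧸ Ideal.ofList rs),
      (∀ n, ExtZ (R ⧸ Ideal.ofList rs) M'.car (R ⧸ Ideal.ofList rs) (n + 1)) →
      (∃ N : ℕ, ∀ n, N ≤ n → ExtZ (R ⧸ Ideal.ofList rs) M'.car M'.car n) →
      Module.Free (R ⧸ Ideal.ofList rs) M'.car)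
    (M : FGM R) (hR : ∀ n, ExtZ R M.car R (n + 1)) {N : ℕ}
    (hM : ∀ n, N ≤ n → ExtZ R M.car M.car n) : Module.Free R M.car := by
  set I := Ideal.ofList rs with hI
  refine free_of_free_sy' M hR rs.length ?_
  have hN : ∀ i, IsWeaklyRegular (sy (sy M rs.length) i).car rs := by
    intro i
    rw [sy_sy]
    exact (wr_sy M hreg _).wr (by omega)
  have hN0 : IsWeaklyRegular (sy M rs.length).car rs := hN 0
  have inj : ∀ i, Function.Injective (red I (inc (sy M rs.length) i)) :=
    fun i => red_inj (inc_inj _ i) (pro_surj _ i) (inc_pro _ i) (hN i)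
  refine free_of_red (sy M rs.length) hrs hN0 ?_
  have : Module.Finite (R ⧸ I) ((sy M rs.length).car ⧸
      (I • ⊤ : Submodule R (sy M rs.length).car)) :=
    Module.Finite.of_restrictScalars_finite R _ _
  let N' : FGM (R ⧸ I) := ⟨(sy M rs.length).car ⧸ (I • ⊤ : Submodule R (sy M rs.length).car)⟩
  refine G N' ?_ ?_
  · intro n
    refine extZ_red (sy M rs.length) I inj (R ⧸ I) n ?_
    have h1 := extZ_quot_reg (Z := (sy M rs.length).car) hreg (a := 1) (fun m hm => by
      obtain ⟨k, rfl⟩ := Nat.exists_eq_add_of_le' hm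
      exact ext_sy_ring M hR _ k) (n + 1) (by omega)
    refine extZ_congr_right (Submodule.quotEquivOfEq _ _ ?_) h1
    rw [smul_eq_mul, Ideal.mul_top]
  · refine ⟨N + 1, fun n hn => ?_⟩
    obtain ⟨k, rfl⟩ := Nat.exists_eq_add_of_le' (show 1 ≤ n by omega)
    refine extZ_red (sy M rs.length) I inj N'.car k ?_
    exact extZ_quot_reg (Z := (sy M rs.length).car) hN0 (a := N + 1) (fun m hm => by
      obtain ⟨k, rfl⟩ := Nat.exists_eq_add_of_le' (show 1 ≤ m by omega)
      exact ext_sy_sy M hR hM (by omega)) (k + 1) hn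

end main

end SAC3
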