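import Mathlib
import Pool.Agent.Lib.SAC3.RedMain

/-!
From eventual vanishing of Ext to finite projective dimension.
-/

set_option autoImplicit false

open CategoryTheory IsLocalRing SAC84 RingTheory.Sequence

universe u

namespace SAC3

variable {R : Type u} [CommRing R] [IsLocalRing R] [IsNoetherianRing R]

lemma pd_of_free_sy (M : FGM R) (d : ℕ) (h : Module.Free R (sy M d).car) :
    HasProjectiveDimensionLE (ModuleCat.of R M.car) d := by
  have key : ∀ i, i ≤ d → HasProjectiveDimensionLE (ModuleCat.of R (sy M (d - i)).car) i := by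
    intro i
    induction i with
    | zero =>
      intro _
      have h1 : Projective (ModuleCat.of R (sy M d).car) := inferInstance
      exact inferInstanceAs (HasProjectiveDimensionLT (ModuleCat.of R (sy M d).car) 1)
    | succ i ih =>
      intro hi
      have h1 := ih (by omega)
      obtain ⟨k, hk⟩ : ∃ k, k = d - (i + 1) := ⟨_, rfl⟩
      have h2 : d - i = k + 1 := by omega
      rw [h2] at h1
      rw [← hk]
      have hS := sc_exact (inc M k) (pro M k) (inc_inj M k) (pro_surj M k) (inc_pro M k)
      have hP : Projective (ModuleCat.of R (Fin (bt M k) → R)) := inferInstance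
      exact hS.hasProjectiveDimensionLT_X₃ (i + 1) h1
        (hasProjectiveDimensionLT_of_ge _ 1 (i + 2) (by omega))
  have h1 := key d le_rfl
  rw [Nat.sub_self] at h1
  exact h1

variable [HasExt.{u} (ModuleCat.{u} R)]

lemma ext_sy_right' (M : FGM R) {a : ℕ} (hR : ∀ n, a ≤ n → ExtZ R M.car R n)
    (hM : ∀ n, a ≤ n → ExtZ R M.car M.car n) (j : ℕ) :
    ∀ n, a ≤ n → ExtZ R M.car (sy M j).car (n + j) := by
  induction j with
  | zero => exact hM
  | succ j ih =>
    intro n h
    exact ExtZ.shift_right (inc_inj M j) (pro_surj M j) (inc_pro M j) (ih n h)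
      (ExtZ.pi (hR (n + j + 1) (by omega)))

/-- **From the symmetric Auslander condition to the generalised Auslander-Reiten condition.**
If every finitely generated module over `R` with the vanishing of the symmetric Auslander
condition is free then eventual vanishing gives finite projective dimension. -/
theorem garc_of_sac
    (G : ∀ M' : FGM R, (∀ n, ExtZ R M'.car R (n + 1)) →
      (∃ N : ℕ, ∀ n, N ≤ n → ExtZ R M'.car M'.car n) → Module.Free R M'.car)
    (M : FGM R) {a : ℕ} (hR : ∀ n, a ≤ n → ExtZ R M.car R n)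
    (hM : ∀ n, a ≤ n → ExtZ R M.car M.car n) :
    HasProjectiveDimensionLE (ModuleCat.of R M.car) a := by
  refine pd_of_free_sy M a (G (sy M a) ?_ ⟨a + 1, ?_⟩)
  · intro n
    exact ext_sy_left M R a n (hR _ (by omega))
  · intro n hn
    obtain ⟨k, rfl⟩ := Nat.exists_eq_add_of_le' (show 1 ≤ n by omega)
    exact ext_sy_left M _ a k (ext_sy_right' M hR hM a (k + 1) (by omega))

/-- **Reduction modulo a regular sequence**, in the form with finite projective dimension. -/
theorem reduction_garc {rs : List R} (hrs : ∀ x ∈ rs, x ∈ maximalIdeal R)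
    (hreg : IsWeaklyRegular R rs) [HasExt.{u} (ModuleCat.{u} (R ⧸ Ideal.ofList rs))]
    (G : ∀ M' : FGM (R ⧸ Ideal.ofList rs),
      (∀ n, ExtZ (R ⧸ Ideal.ofList rs) M'.car (R ⧸ Ideal.ofList rs) (n + 1)) →
      (∃ N : ℕ, ∀ n, N ≤ n → ExtZ (R ⧸ Ideal.ofList rs) M'.car M'.car n) →
      Module.Free (R ⧸ Ideal.ofList rs) M'.car)
    (M : FGM R) {a : ℕ} (hR : ∀ n, a ≤ n → ExtZ R M.car R n)
    (hM : ∀ n, a ≤ n → ExtZ R M.car M.car n) :
    HasProjectiveDimensionLE (ModuleCat.of R M.car) a := by
  refine garc_of_sac (fun M' h1 h2 => ?_) M hR hM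
  obtain ⟨N, hN⟩ := h2
  exact reduction hrs hreg G M' h1 hN

end SAC3
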